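import Pool.Agent.helper35.MR.SpecA

/-! # Project mr, module U1 -/

set_option autoImplicit false

open Finset

namespace Pool.Agent.helper35.MR

open Pool.Agent.RRank

theorem U1_term {K : Type} [Field K] {n : ℕ} (f : Ordering → K) (hf : f .lt = f .gt)
    (p q : Fin n → K) (hpq : ∀ i, p i * q i = 0) (i j : Fin n) :
    p i * q j * (f (cmp i j) - f .gt) = 0 := by
  rcases lt_trichotomy i j with h | h | h
  · rw [(cmp_eq_lt_iff _ _).2 h, hf, sub_self, mul_zero]
  · subst h
    rw [hpq, zero_mul]
  · rw [(cmp_eq_gt_iff _ _).2 h, sub_self, mul_zero]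

theorem U1 (hBX : BX_stmt) : U1_stmt := by
  intro K _ V a b c δ hB hδ ha hb hc hne n
  by_contra hG
  obtain ⟨t, s, a', b', c', hV, h1, h2, h3, h4, h5, h6, h7⟩ := hBX K V a b c δ hB hδ n hG
  have hab : ∀ i, a' i * b' i = 0 := by
    intro i
    by_cases h : s i = 0
    · rw [hV.sb i (by rw [h]; decide), mul_zero]
    · rw [hV.sa i h, zero_mul]
  have hac : ∀ i, a' i * c' i = 0 := by
    intro i
    by_cases h : s i = 0
    · rw [hV.sc i (by rw [h]; decide), mul_zero]
    · rw [hV.sa i h, zero_mul]
  have hbc : ∀ i, b' i * c' i = 0 := by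
    intro i
    by_cases h : s i = 1
    · rw [hV.sc i (by rw [h]; decide), mul_zero]
    · rw [hV.sb i h, zero_mul]
  have hE := hV.E7
  rw [h1] at hE
  have e1 : ∑ i, a' i * t (some i) none none = 0 := by
    refine Finset.sum_eq_zero fun i _ => ?_
    rw [h2, ha, hc]
    ring
  have e2 : ∑ j, b' j * t none (some j) none = 0 := by
    refine Finset.sum_eq_zero fun i _ => ?_
    rw [h3, hb]
    ring
  have e3 : ∑ k, c' k * t none none (some k) = 0 := by
    refine Finset.sum_eq_zero fun i _ => ?_
    rw [h4, mul_zero]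
  have e4 : ∑ i, ∑ j, a' i * b' j * t (some i) (some j) none = 0 := by
    refine Finset.sum_eq_zero fun i _ => Finset.sum_eq_zero fun j _ => ?_
    rw [h5]
    exact U1_term a ha a' b' hab i j
  have e5 : ∑ i, ∑ k, a' i * c' k * t (some i) none (some k) = 0 := by
    refine Finset.sum_eq_zero fun i _ => Finset.sum_eq_zero fun j _ => ?_
    rw [h6]
    exact U1_term c hc a' c' hac i j
  have e6 : ∑ j, ∑ k, b' j * c' k * t none (some j) (some k) = 0 := by
    refine Finset.sum_eq_zero fun i _ => Finset.sum_eq_zero fun j _ => ?_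
    rw [h7]
    exact U1_term b hb b' c' hbc i j
  rw [e1, e2, e3, e4, e5, e6] at hE
  apply hne
  simpa using hE

end Pool.Agent.helper35.MR
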