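import Pool.Agent.helper35.MR.SpecA

/-! # Project mr, module U2 -/

set_option autoImplicit false

open Finset

namespace Pool.Agent.helper35.MR

open Pool.Agent.RRank

theorem U2_val {K : Type} [Field K] {n : ℕ} (f : Ordering → K) (hf : f .lt = f .gt)
    (i j : Fin n) : f (cmp i j) - f .gt = if i = j then f .eq - f .gt else 0 := by
  rcases lt_trichotomy i j with h | h | h
  · rw [(cmp_eq_lt_iff _ _).2 h, hf, sub_self, if_neg h.ne]
  · subst h
    rw [if_pos rfl, cmp_self_eq_eq]
  · rw [(cmp_eq_gt_iff _ _).2 h, sub_self, if_neg h.ne']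

theorem U2_sum {K : Type} [Field K] {n : ℕ} (f : Ordering → K) (hf : f .lt = f .gt)
    (p : Fin n → K) (j : Fin n) :
    ∑ i, p i * (f (cmp i j) - f .gt) = p j * (f .eq - f .gt) := by
  rw [Finset.sum_eq_single j]
  · rw [U2_val f hf, if_pos rfl]
  · intro i _ hi
    rw [U2_val f hf, if_neg hi, mul_zero]
  · intro h
    exact absurd (Finset.mem_univ j) h

theorem U2_sum' {K : Type} [Field K] {n : ℕ} (f : Ordering → K) (hf : f .lt = f .gt)
    (p : Fin n → K) (j : Fin n) :
    ∑ i, p i * (f (cmp j i) - f .gt) = p j * (f .eq - f .gt) := by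
  rw [Finset.sum_eq_single j]
  · rw [U2_val f hf, if_pos rfl]
  · intro i _ hi
    rw [U2_val f hf, if_neg (Ne.symm hi), mul_zero]
  · intro h
    exact absurd (Finset.mem_univ j) h

theorem U2 (hBX : BX_stmt) : U2_stmt := by
  intro K _ V a b c δ hB hδ ha hb hc ha' hb' hc' n hn
  by_contra hG
  obtain ⟨t, s, p, q, r, hV, h1, h2, h3, h4, h5, h6, h7⟩ := hBX K V a b c δ hB hδ n hG
  obtain ⟨m, rfl⟩ : ∃ m, n = m + 1 := ⟨n - 1, by omega⟩
  have hA : a .eq - a .gt ≠ 0 := sub_ne_zero.2 ha'
  have hB' : b .eq - b .gt ≠ 0 := sub_ne_zero.2 hb'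
  have hC : c .eq - c .gt ≠ 0 := sub_ne_zero.2 hc'
  -- the tables
  have t1 : ∀ i : Fin (m + 1), t (some i) none none = 0 := by
    intro i
    rw [h2, ha, hc]
    ring
  have t2 : ∀ i : Fin (m + 1), t none (some i) none = 0 := by
    intro i
    rw [h3, hb]
    ring
  have s0 : s 0 = 0 ∨ s 0 = 1 ∨ s 0 = 2 := by
    generalize s 0 = z
    revert z
    decide
  rcases s0 with s0 | s0 | s0
  · have k0 : r 0 = 0 := hV.sc 0 (by rw [s0]; decide)
    have e3 := hV.E3 0 0 (by rw [s0]; decide) (by rw [s0]; decide)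
    rw [h7, cmp_self_eq_eq, if_pos rfl] at e3
    have e5 := hV.E5 0 (by rw [s0]; decide)
    simp only [t2, h5, h7] at e5
    rw [U2_sum a ha, U2_sum' b hb, k0] at e5
    have : p 0 * (a .eq - a .gt) = 0 := by linear_combination e5
    rcases mul_eq_zero.1 this with h | h
    · rw [h, mul_zero, add_zero] at e3
      exact hB' e3
    · exact hA h
  · have k0 : r 0 = 0 := hV.sc 0 (by rw [s0]; decide)
    have e2 := hV.E2 0 0 (by rw [s0]; decide) (by rw [s0]; decide)
    rw [h6, cmp_self_eq_eq, if_pos rfl] at e2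
    have e4 := hV.E4 0 (by rw [s0]; decide)
    simp only [t1, h5, h6] at e4
    rw [U2_sum' a ha, U2_sum' c hc, k0] at e4
    have : q 0 * (a .eq - a .gt) = 0 := by linear_combination e4
    rcases mul_eq_zero.1 this with h | h
    · rw [h, mul_zero, add_zero] at e2
      exact hC e2
    · exact hA h
  · have k0 : q 0 = 0 := hV.sb 0 (by rw [s0]; decide)
    have e1 := hV.E1 0 0 (by rw [s0]; decide) (by rw [s0]; decide)
    rw [h5, cmp_self_eq_eq, if_pos rfl] at e1
    have e4 := hV.E4 0 (by rw [s0]; decide)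
    simp only [t1, h5, h6] at e4
    rw [U2_sum' a ha, U2_sum' c hc, k0] at e4
    have : r 0 * (c .eq - c .gt) = 0 := by linear_combination e4
    rcases mul_eq_zero.1 this with h | h
    · rw [h, mul_zero, add_zero] at e1
      exact hA e1
    · exact hC h

end Pool.Agent.helper35.MR
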